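import Mathlib
import Pool.Agent.Lib.MP_1e894a_co.Defs
import Pool.Agent.Lib.MP_1e894a_co.Main

open Pool.Agent.Lib.MP_1e894a_co

/-- For all `m, n ≥ 3` and every regular `n`-gon `P`, the largest area ratio of a regular `m`-gon
contained in `P` is `bestRatio m n`, and the maximisers are exactly the listed positions, placed
relative to any side `l` of `P`. -/
theorem Pool.Agent.Results.MP_1e894a_co.Full.result (m n : ℕ) (hm : 3 ≤ m) (hn : 3 ≤ n)
    (c a : ℂ) (ha : a ≠ 0) :
    IsGreatest {x : ℝ | ∃ Q : Set ℂ, IsRegularGon m Q ∧ Q ⊆ gon n c a ∧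
        x = area Q / area (gon n c a)} (bestRatio m n) ∧
      ∀ Q : Set ℂ, IsRegularGon m Q →
        ((Q ⊆ gon n c a ∧ area Q / area (gon n c a) = bestRatio m n) ↔
          ∃ x ∈ positions m n, ∃ l : ℕ,
            Q = gon m (c + mid n a l * x.1) (mid n a l * x.2)) :=
  main m n hm hn c a ha
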